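import Pool.Agent.H929.KC.StmQ
import Pool.Agent.H717.KC.EXL

/-! `S_SEPQ` and `S_EXL2` of the project KC (part Q) of helper929. -/

set_option autoImplicit false

namespace Pool.Agent.H376.KC

open Pool.Agent.H929.KC

/-! ## EXL2 -/

section
open Polynomial

theorem t_EXL2 : S_EXL2 := by
  intro Ω L _ _ φ hφ f g f' g' q c c' hfg hfg' hq hc hc' hff' hf hdeg hsep _
  have hcu : IsUnit c := by
    rw [PowerSeries.isUnit_iff_constantCoeff, isUnit_iff_ne_zero]; exact hc
  have hcu' : IsUnit c' := by
    rw [PowerSeries.isUnit_iff_constantCoeff, isUnit_iff_ne_zero]; exact hc'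
  obtain ⟨v, hv⟩ := hcu
  -- `f'` divides `f g`
  obtain ⟨v', hv'⟩ := hcu'
  have hprod : f * g = f' * (g' * C ((↑v'⁻¹ : PowerSeries Ω) * (v : PowerSeries Ω))) := by
    have h1 : f' * (g' * C ((↑v'⁻¹ : PowerSeries Ω) * (v : PowerSeries Ω))) =
        (f' * g') * C ((↑v'⁻¹ : PowerSeries Ω) * (v : PowerSeries Ω)) := by ring
    rw [h1, hfg, hfg', ← hv, ← hv']
    have h2 : C (v' : PowerSeries Ω) * q * C ((↑v'⁻¹ : PowerSeries Ω) * (v : PowerSeries Ω)) =
        (C (v' : PowerSeries Ω) * C (↑v'⁻¹ : PowerSeries Ω)) * (C (v : PowerSeries Ω) * q) := by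
      rw [C_mul]; ring
    rw [h2, ← C_mul, Units.mul_inv, C_1, one_mul]
  -- residues
  have hres : f.map (PowerSeries.constantCoeff (R := Ω)) * g.map (PowerSeries.constantCoeff (R := Ω)) =
      C (PowerSeries.constantCoeff (R := Ω) c) * q.map (PowerSeries.constantCoeff (R := Ω)) := by
    rw [← Polynomial.map_mul, hfg, Polynomial.map_mul, map_C]
  have hsep2 : (f.map (PowerSeries.constantCoeff (R := Ω)) *
      g.map (PowerSeries.constantCoeff (R := Ω))).Separable := by
    rw [hres]
    have hu : IsUnit (C (PowerSeries.constantCoeff (R := Ω) c)) :=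
      isUnit_C.2 (isUnit_iff_ne_zero.2 hc)
    exact hsep.unit_mul hu
  have hcop := hsep2.isCoprime
  have hq0 : q.map (PowerSeries.constantCoeff (R := Ω)) ≠ 0 := (hq.map _).ne_zero
  have hne : f.map (PowerSeries.constantCoeff (R := Ω)) *
      g.map (PowerSeries.constantCoeff (R := Ω)) ≠ 0 := by
    rw [hres]
    exact mul_ne_zero (by rwa [Ne, C_eq_zero]) hq0
  have hf0b : f.map (PowerSeries.constantCoeff (R := Ω)) ≠ 0 := left_ne_zero_of_mul hne
  have h1 : IsCoprime f' g := by
    refine Pool.Agent.H717.KC.cop_lift f' g f'.natDegree le_rfl (by rw [← hff', hf, hdeg])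
      (by rw [← hff']; exact hf0b) ?_
    rw [← hff']
    exact hcop
  have h2 : IsCoprime (f'.map φ) (g.map φ) := h1.map (mapRingHom φ)
  have h3 : f'.map φ ∣ f.map φ := by
    refine h2.dvd_of_dvd_mul_right ?_
    rw [← Polynomial.map_mul, hprod, Polynomial.map_mul]
    exact dvd_mul_right _ _
  have hF0 : f.map φ ≠ 0 := by
    rw [Ne, Polynomial.map_eq_zero_iff hφ]
    rintro rfl
    rw [Polynomial.map_zero] at hf0b
    exact hf0b rfl
  have hgcd0 : EuclideanDomain.gcd (f.map φ) (f'.map φ) ≠ 0 := by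
    intro h
    exact hF0 (EuclideanDomain.gcd_eq_zero_iff.1 h).1
  have h4 : f'.map φ ∣ EuclideanDomain.gcd (f.map φ) (f'.map φ) :=
    EuclideanDomain.dvd_gcd h3 dvd_rfl
  have h5 := natDegree_le_of_dvd h4 hgcd0
  rw [natDegree_map_eq_of_injective hφ f'] at h5
  have h6 := natDegree_le_of_dvd (EuclideanDomain.gcd_dvd_left (f.map φ) (f'.map φ)) hF0
  rw [natDegree_map_eq_of_injective hφ f] at h6
  omega

/-- the resultant of a monic polynomial and its derivative, and separability -/
theorem sep_iff {R K : Type} [CommRing R] [Field K] (ψ : R →+* K) (s : R[X]) (hs : s.Monic)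
    (h0 : s.natDegree ≠ 0) :
    (s.map ψ).Separable ↔ ψ (resultant s s.derivative s.natDegree s.derivative.natDegree) ≠ 0 := by
  have hsn : (s.map ψ).natDegree = s.natDegree := hs.natDegree_map ψ
  constructor
  · intro h
    rw [← resultant_map_map]
    obtain ⟨k, hk⟩ := Nat.exists_eq_add_of_le (natDegree_map_le (p := s.derivative) (f := ψ))
    rw [hk, resultant_add_right_deg _ _ _ _ _ le_rfl]
    refine mul_ne_zero (pow_ne_zero _ ?_) ?_
    · have : (s.map ψ).coeff s.natDegree = 1 := by
        rw [coeff_map, hs.coeff_natDegree, map_one]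
      rw [this]
      exact one_ne_zero
    · rw [← hsn]
      refine resultant_ne_zero _ _ ?_
      rw [← derivative_map]
      exact h
  · intro h
    obtain ⟨p, q, -, -, e⟩ := exists_mul_add_mul_eq_C_resultant s s.derivative (m := s.natDegree)
      (n := s.derivative.natDegree) le_rfl le_rfl (Or.inl h0)
    have h1 := congrArg (Polynomial.map ψ) e
    rw [Polynomial.map_add, Polynomial.map_mul, Polynomial.map_mul, map_C] at h1
    refine ⟨C (ψ (resultant s s.derivative s.natDegree s.derivative.natDegree))⁻¹ * p.map ψ,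
      C (ψ (resultant s s.derivative s.natDegree s.derivative.natDegree))⁻¹ * q.map ψ, ?_⟩
    rw [derivative_map]
    have h2 : C (ψ (resultant s s.derivative s.natDegree s.derivative.natDegree))⁻¹ * p.map ψ * s.map ψ +
        C (ψ (resultant s s.derivative s.natDegree s.derivative.natDegree))⁻¹ * q.map ψ *
          s.derivative.map ψ =
        C (ψ (resultant s s.derivative s.natDegree s.derivative.natDegree))⁻¹ *
          (s.map ψ * p.map ψ + s.derivative.map ψ * q.map ψ) := by ring
    rw [h2, h1, ← C_mul, inv_mul_cancel₀ h, C_1]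

end

/-! ## SEPQ -/

section
open MvPolynomial

variable {k : Type} [Field k] {F : Type} [Field F] [Algebra k F]

/-- evaluation at a point of the plane -/
theorem plane_eval {Ω : Type} [Field Ω] [Algebra k Ω] (P : Six F) (ι : F →ₐ[k] Ω) (t u : Ω)
    (f : MvPolynomial (Fin 4) k) :
    (eval₂Hom (ι : F →+* Ω) ![t, u]) ((aeval ![1, X 0, X 1, -(C P.r + C P.p * X 0 + C P.q * X 1)] :
        MvPolynomial (Fin 4) k →ₐ[k] MvPolynomial (Fin 2) F) f) =
      (aeval ![1, t, u, -(ι P.r + ι P.p * t + ι P.q * u)] : MvPolynomial (Fin 4) k →ₐ[k] Ω) f := by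
  induction f using MvPolynomial.induction_on with
  | C a =>
    rw [aeval_C, aeval_C]
    have : (algebraMap k (MvPolynomial (Fin 2) F)) a = C (algebraMap k F a) := rfl
    rw [this, eval₂Hom_C]
    exact ι.commutes a
  | add f g hf hg => rw [map_add, map_add, map_add, hf, hg]
  | mul_X f i hf =>
    rw [map_mul, map_mul, map_mul, hf, aeval_X, aeval_X]
    congr 1
    fin_cases i <;> simp

/-- the specialisation of the covering at a point of the plane -/
theorem qz_map {Ω : Type} [Field Ω] [Algebra k Ω] (Q : Polynomial (MvPolynomial (Fin 4) k))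
    (P : Six F) (ι : F →ₐ[k] Ω) (t u : Ω) :
    (Qz Q P).map (eval₂Hom (ι : F →+* Ω) ![t, u]) =
      Qat Q ![1, t, u, -(ι P.r + ι P.p * t + ι P.q * u)] := by
  rw [Qz, Qat, Polynomial.map_map]
  congr 1
  exact RingHom.ext (plane_eval P ι t u)

/-- the affine equation of the section at a point of the plane -/
theorem gz_eval {Ω : Type} [Field Ω] [Algebra k Ω] (G : MvPolynomial (Fin 4) k)
    (P : Six F) (ι : F →ₐ[k] Ω) (t u : Ω) :
    eval₂ (ι : F →+* Ω) ![t, u] (gz G P) =
      aeval ![1, t, u, -(ι P.r + ι P.p * t + ι P.q * u)] G := plane_eval P ι t u G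

theorem t_SEPQ (hF : S_FACTS) : S_SEPQ := by
  intro k F _ _ _ _ G d P Q e hQ hirr
  have : CharZero F := charZero_of_injective_algebraMap (algebraMap k F).injective
  obtain ⟨heul, -⟩ := hF k F G d P hQ.toHyp
  have hpt : P.pt = ![1, P.x, P.y, -(P.r + P.p * P.x + P.q * P.y)] := by
    have : P.w = -(P.r + P.p * P.x + P.q * P.y) := by linear_combination heul
    rw [Six.pt, this]
  have hdeg0 : Q.natDegree ≠ 0 := by
    have h1 := hQ.deg
    have h2 := hQ.one_le
    omega
  -- first part
  have hsep : (Qat Q P.pt).Separable := by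
    set K := IntermediateField.adjoin k {P.x, P.y, P.w} with hK
    have : CharZero K := charZero_of_injective_algebraMap (algebraMap k K).injective
    have hx : P.x ∈ K := IntermediateField.subset_adjoin k _ (by simp)
    have hy : P.y ∈ K := IntermediateField.subset_adjoin k _ (by simp)
    have hw : P.w ∈ K := IntermediateField.subset_adjoin k _ (by simp)
    let v : Fin 4 → K := ![1, ⟨P.x, hx⟩, ⟨P.y, hy⟩, ⟨P.w, hw⟩]
    have hv : (algebraMap K F) ∘ v = P.pt := by
      funext i
      fin_cases i <;> rfl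
    have hmap : (Qat Q v).map (algebraMap K F) = Qat Q P.pt := by
      rw [Qat, Qat, Polynomial.map_map]
      congr 1
      refine RingHom.ext fun f => ?_
      show algebraMap K F (aeval v f) = aeval P.pt f
      rw [← hv]
      exact (MvPolynomial.aeval_algebraMap_apply F v f).symm
    have hmon : (Qat Q v).Monic := hQ.monic.map _
    have hnd : (Qat Q v).natDegree = Q.natDegree := hQ.monic.natDegree_map _
    have hir : Irreducible (Qat Q v) := by
      refine ⟨fun hu => ?_, fun A B hAB => ?_⟩
      · have := Polynomial.natDegree_eq_zero_of_isUnit hu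
        omega
      · have h0 : A * B ≠ 0 := hAB ▸ hmon.ne_zero
        rcases hQ.irrQ A B (by rw [← hAB]; exact hmap) with h | h
        · left
          rw [Polynomial.isUnit_iff_degree_eq_zero,
            Polynomial.degree_eq_natDegree (left_ne_zero_of_mul h0), h]
          rfl
        · right
          rw [Polynomial.isUnit_iff_degree_eq_zero,
            Polynomial.degree_eq_natDegree (right_ne_zero_of_mul h0), h]
          rfl
    rw [← hmap]
    exact hir.separable.map
  refine ⟨hsep, ?_⟩
  intro Ω _ _ ι t u hgen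
  have hmonz : (Qz Q P).Monic := hQ.monic.map _
  have hndz : (Qz Q P).natDegree ≠ 0 := by
    rw [Qz, hQ.monic.natDegree_map]
    exact hdeg0
  rw [← qz_map Q P ι t u, sep_iff _ _ hmonz hndz]
  intro hzero
  have hdvd := hgen _ hzero
  have h1 : (Qz Q P).map (eval₂Hom ((AlgHom.id k F : F →ₐ[k] F) : F →+* F) ![P.x, P.y]) =
      Qat Q P.pt := by
    rw [qz_map, hpt]
    rfl
  rw [← h1, sep_iff _ _ hmonz hndz] at hsep
  apply hsep
  obtain ⟨g, hg⟩ := hdvd
  rw [hg, map_mul]
  have h2 : (eval₂Hom ((AlgHom.id k F : F →ₐ[k] F) : F →+* F) ![P.x, P.y]) (gz G P) = 0 := by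
    have h3 := gz_eval G P (AlgHom.id k F) P.x P.y
    have h4 : aeval P.pt G = 0 := hQ.gp.zero
    rw [hpt] at h4
    exact h3.trans h4
  rw [h2, zero_mul]

end

end Pool.Agent.H376.KC
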